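import Pool.Agent.V1155.IntPsdD

namespace Pool.Agent.Results.MP_6cd9e0_an.GramZd

open Matrix Pool.Agent.V1155.IntPsd

/-- The function `f(m) = 8^m + (-1)^m` on the integers keeps positivity of every Gram matrix
`Bᵀ B` of integer vectors (every size, every number of coordinates), and yet it is not
`m ↦ ∑ c_k m^k` for any nonnegative coefficients `c_k`. -/
theorem result :
    (∀ (n d : ℕ) (B : Matrix (Fin d) (Fin n) ℤ),
      ((Bᵀ * B).map (fun m : ℤ => (8:ℝ)^m + (-1:ℝ)^m)).PosSemidef) ∧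
    ¬ ∃ c : ℕ → ℝ, (∀ k, 0 ≤ c k) ∧
      ∀ m : ℤ, HasSum (fun k => c k * (m:ℝ)^k) ((8:ℝ)^m + (-1:ℝ)^m) := by
  constructor
  · intro n d B
    have h := (tensor n d (fun i s => B s i)).1
    have e : (Bᵀ * B).map (fun m : ℤ => (8:ℝ)^m + (-1:ℝ)^m) =
        Matrix.of fun i j => (8:ℝ)^(∑ s, B s i * B s j) + (-1:ℝ)^(∑ s, B s i * B s j) := by
      ext i j
      simp only [Matrix.map_apply, Matrix.mul_apply, Matrix.transpose_apply, of_apply]
    rw [e]
    exact h
  · rintro ⟨c, hc, h⟩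
    exact hasSum_contra c hc h

end Pool.Agent.Results.MP_6cd9e0_an.GramZd
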